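import Pool.Agent.N737.BC.Cnt

set_option autoImplicit false

namespace Pool.Agent.N737.BC

lemma TT_pow (t : ℕ) : ∃ A, TT t ^ 4 = 128 * A + 1 := by
  refine ⟨8192 * (15015 * t + 10792) ^ 4 + 1024 * (15015 * t + 10792) ^ 3 +
    48 * (15015 * t + 10792) ^ 2 + (15015 * t + 10792), ?_⟩
  unfold TT
  ring

lemma RR_pow (ρ i : ℕ) : ∃ B, RR ρ i ^ 4 = 128 * B + ρ ^ 4 := by
  refine ⟨8192 * (15015 * i) ^ 4 + 1024 * (15015 * i) ^ 3 * ρ +
    48 * (15015 * i) ^ 2 * ρ ^ 2 + (15015 * i) * ρ ^ 3, ?_⟩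
  unfold RR
  ring

/-- the class modulo `8` -/
lemma cls {ρ c t i n : ℕ}
    (h : (ρ = 37 ∧ c = 1) ∨ (ρ = 29 ∧ c = 3) ∨ (ρ = 43 ∧ c = 5) ∨ (ρ = 19 ∧ c = 7) ∨
      (ρ = 71 ∧ c = 2) ∨ (ρ = 23 ∧ c = 6))
    (hn : 16 * n + RR ρ i ^ 4 = TT t ^ 4) : n % 8 = c := by
  obtain ⟨A, hA⟩ := TT_pow t
  obtain ⟨B, hB⟩ := RR_pow ρ i
  rw [hA, hB] at hn
  rcases h with ⟨rfl, rfl⟩ | ⟨rfl, rfl⟩ | ⟨rfl, rfl⟩ | ⟨rfl, rfl⟩ | ⟨rfl, rfl⟩ | ⟨rfl, rfl⟩ <;>
    norm_num at hn <;> omega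

/-- existence of `n` -/
lemma ex_n {ρ t i : ℕ} (hρ : ρ % 2 = 1) (hlt : RR ρ i < TT t) :
    ∃ n, 0 < n ∧ 16 * n + RR ρ i ^ 4 = TT t ^ 4 := by
  obtain ⟨A, hA⟩ := TT_pow t
  obtain ⟨B, hB⟩ := RR_pow ρ i
  obtain ⟨k, hk⟩ : ∃ k, ρ ^ 4 = 16 * k + 1 := by
    obtain ⟨m, rfl⟩ : ∃ m, ρ = 2 * m + 1 := ⟨ρ / 2, by omega⟩
    obtain ⟨j, hj⟩ := Nat.even_mul_succ_self m
    refine ⟨m ^ 4 + 2 * m ^ 3 + m ^ 2 + j, ?_⟩
    have : (2 * m + 1) ^ 4 = 16 * m ^ 4 + 32 * m ^ 3 + 16 * m ^ 2 + 8 * (m * (m + 1)) + 1 := by ring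
    rw [this, hj]
    ring
  have h4 : RR ρ i ^ 4 < TT t ^ 4 := Nat.pow_lt_pow_left hlt (by norm_num)
  refine ⟨8 * A - (8 * B + k), ?_, ?_⟩ <;> omega

lemma sqf {ρ t i n : ℕ} (hρ : Nat.Coprime ρ 15015) (hn : 16 * n + RR ρ i ^ 4 = TT t ^ 4)
    (h4 : n % 4 ≠ 0) (hbad : ∀ p : ℕ, p.Prime → 17 ≤ p → ¬ BadP p (TT t) (RR ρ i)) :
    Squarefree n := by
  rw [Nat.squarefree_iff_prime_squarefree]
  intro p hp hpp
  have hpn : p ∣ n := (dvd_mul_right p p).trans hpp
  by_cases h15 : p ∣ 15015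
  · -- small odd primes
    have h1 : p ∣ TT t := by
      have : TT t = 15015 * (32 * t + 23) := by unfold TT; ring
      rw [this]; exact h15.mul_right _
    have h2 : p ∣ RR ρ i ^ 4 :=
      (Nat.dvd_add_right (hpn.mul_left 16)).1 (hn ▸ h1.trans (dvd_pow_self _ (by norm_num)))
    have h3 : p ∣ RR ρ i := hp.dvd_of_dvd_pow h2
    have h5 : p ∣ ρ := by
      unfold RR at h3
      have : p ∣ 480480 * i := by
        have e : (480480 : ℕ) = 15015 * 32 := by norm_num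
        rw [e, mul_assoc]; exact h15.mul_right _
      exact (Nat.dvd_add_right this).1 h3
    have := Nat.dvd_gcd h5 h15
    rw [hρ] at this
    exact hp.one_lt.ne' (Nat.dvd_one.1 this)
  · rcases Nat.lt_or_ge p 17 with h17 | h17
    · have h2 := hp.two_le
      have hp2 : p = 2 := by
        by_contra hne
        interval_cases p <;> revert hp h15 hne <;> decide
      subst hp2
      apply h4
      exact Nat.mod_eq_zero_of_dvd hpp
    · apply hbad p hp h17
      by_cases hr : p ∣ RR ρ i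
      · left
        refine ⟨?_, hr⟩
        have h1 : p ∣ TT t ^ 4 := by
          rw [← hn]
          exact dvd_add (hpn.mul_left 16) (hr.trans (dvd_pow_self _ (by norm_num)))
        exact hp.dvd_of_dvd_pow h1
      · right
        refine ⟨hr, ?_⟩
        set T := TT t with hT
        set r := RR ρ i with hrr
        have hTn : ¬ p ∣ T := by
          intro hd
          have h1 : p ∣ r ^ 4 :=
            (Nat.dvd_add_right (hpn.mul_left 16)).1 (hn ▸ hd.trans (dvd_pow_self _ (by norm_num)))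
          exact hr (hp.dvd_of_dvd_pow h1)
        have hpz : Prime (p : ℤ) := Nat.prime_iff_prime_int.1 hp
        have hdiv : ((p : ℤ) ^ 2) ∣ ((T : ℤ) - r) * (((T : ℤ) + r) * ((T : ℤ) ^ 2 + (r : ℤ) ^ 2)) := by
          have h1 : ((p : ℤ) ^ 2) ∣ ((n : ℕ) : ℤ) := by
            have : p ^ 2 ∣ n := by rw [sq]; exact hpp
            exact_mod_cast this
          have e : ((T : ℤ) - r) * (((T : ℤ) + r) * ((T : ℤ) ^ 2 + (r : ℤ) ^ 2)) = 16 * (n : ℤ) := by
            have : (16 * (n : ℤ) + (r : ℤ) ^ 4) = (T : ℤ) ^ 4 := by exact_mod_cast hn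
            linear_combination -this
          rw [e]
          exact h1.mul_left 16
        have hp2T : ¬ (p : ℤ) ∣ 2 * (T : ℤ) := by
          intro h
          have h6 : p ∣ 2 * T := by exact_mod_cast h
          rcases (Nat.Prime.dvd_mul hp).1 h6 with h7 | h7
          · have := Nat.le_of_dvd (by norm_num) h7; omega
          · exact hTn h7
        have hp2r : ¬ (p : ℤ) ∣ 2 * ((r : ℤ) ^ 2) := by
          intro h
          have h6 : p ∣ 2 * r ^ 2 := by exact_mod_cast h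
          rcases (Nat.Prime.dvd_mul hp).1 h6 with h7 | h7
          · have := Nat.le_of_dvd (by norm_num) h7; omega
          · exact hr (hp.dvd_of_dvd_pow h7)
        by_cases hd1 : (p : ℤ) ∣ (T : ℤ) - r
        · left
          have hd2 : ¬ (p : ℤ) ∣ (T : ℤ) + r := by
            intro h
            apply hp2T
            have := dvd_add hd1 h
            have e : ((T : ℤ) - r) + ((T : ℤ) + r) = 2 * (T : ℤ) := by ring
            rwa [e] at this
          have hd3 : ¬ (p : ℤ) ∣ (T : ℤ) ^ 2 + (r : ℤ) ^ 2 := by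
            intro h
            apply hp2r
            have := dvd_sub h (hd1.mul_right ((T : ℤ) + r))
            have e : ((T : ℤ) ^ 2 + (r : ℤ) ^ 2) - ((T : ℤ) - r) * ((T : ℤ) + r) =
              2 * ((r : ℤ) ^ 2) := by ring
            rwa [e] at this
          have hc : IsCoprime ((p : ℤ) ^ 2) (((T : ℤ) + r) * ((T : ℤ) ^ 2 + (r : ℤ) ^ 2)) :=
            IsCoprime.pow_left (IsCoprime.mul_right ((Prime.coprime_iff_not_dvd hpz).2 hd2)
              ((Prime.coprime_iff_not_dvd hpz).2 hd3))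
          have h8 := hc.dvd_of_dvd_mul_right hdiv
          have h9 : ((r : ℤ)) ≡ (T : ℤ) [ZMOD ((p : ℤ) ^ 2)] := (Int.modEq_iff_dvd).2 h8
          have h10 : r ≡ T [MOD p ^ 2] := by
            apply (Int.natCast_modEq_iff).1
            exact_mod_cast h9
          exact h10.symm
        · right
          have hc : IsCoprime ((p : ℤ) ^ 2) ((T : ℤ) - r) :=
            IsCoprime.pow_left ((Prime.coprime_iff_not_dvd hpz).2 hd1)
          have h8 := hc.dvd_of_dvd_mul_left hdiv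
          by_cases hd2 : (p : ℤ) ∣ (T : ℤ) + r
          · left
            have hd3 : ¬ (p : ℤ) ∣ (T : ℤ) ^ 2 + (r : ℤ) ^ 2 := by
              intro h
              apply hp2r
              have := dvd_sub h (hd2.mul_left ((T : ℤ) - r))
              have e : ((T : ℤ) ^ 2 + (r : ℤ) ^ 2) - ((T : ℤ) - r) * ((T : ℤ) + r) =
                2 * ((r : ℤ) ^ 2) := by ring
              rwa [e] at this
            have hc2 : IsCoprime ((p : ℤ) ^ 2) ((T : ℤ) ^ 2 + (r : ℤ) ^ 2) :=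
              IsCoprime.pow_left ((Prime.coprime_iff_not_dvd hpz).2 hd3)
            have h9 := hc2.dvd_of_dvd_mul_right h8
            exact_mod_cast h9
          · right
            have hc2 : IsCoprime ((p : ℤ) ^ 2) ((T : ℤ) + r) :=
              IsCoprime.pow_left ((Prime.coprime_iff_not_dvd hpz).2 hd2)
            have h9 := hc2.dvd_of_dvd_mul_left h8
            exact_mod_cast h9

/-- `n = (T⁴ - r⁴) / 16` is the area of a right triangle with rational sides -/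
lemma area {T r n : ℕ} (hr : 0 < r) (hlt : r < T) (hn : 16 * n + r ^ 4 = T ^ 4) :
    ∃ a b c : ℚ, 0 < a ∧ 0 < b ∧ 0 < c ∧ a ^ 2 + b ^ 2 = c ^ 2 ∧ (n : ℚ) = a * b / 2 := by
  have hT : 0 < T := hr.trans hlt
  have hTq : (0 : ℚ) < T := by exact_mod_cast hT
  have hrq : (0 : ℚ) < r := by exact_mod_cast hr
  have hlt4 : (r : ℚ) ^ 4 < (T : ℚ) ^ 4 := by
    exact_mod_cast Nat.pow_lt_pow_left hlt (by norm_num)
  have hnq : 16 * (n : ℚ) + (r : ℚ) ^ 4 = (T : ℚ) ^ 4 := by exact_mod_cast hn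
  refine ⟨((T : ℚ) ^ 4 - (r : ℚ) ^ 4) / (4 * T * r), (T : ℚ) * r / 2,
    ((T : ℚ) ^ 4 + (r : ℚ) ^ 4) / (4 * T * r), ?_, by positivity, by positivity, ?_, ?_⟩
  · apply div_pos (by linarith) (by positivity)
  · field_simp
    ring
  · have : (n : ℚ) = ((T : ℚ) ^ 4 - (r : ℚ) ^ 4) / 16 := by linarith
    rw [this]
    field_simp
    ring

end Pool.Agent.N737.BC
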