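import Pool.Agent.N737.BC.Sums

set_option autoImplicit false

namespace Pool.Agent.N737.BC

open Finset

open Classical in
/-- number of bad pairs -/
noncomputable def bad (P : Finset ℕ) (N t : ℕ) : ℕ :=
  ((P ×ˢ range N).filter
    (fun x => ∃ p : ℕ, p.Prime ∧ 17 ≤ p ∧ BadP p (TT t) (RR x.1 x.2))).card

lemma RR_lt {N ρ i : ℕ} (hρ : ρ < 480480) (hi : i < N) : RR ρ i < 480480 * N := by
  unfold RR; omega

lemma bad_bound {N H t ρ i p : ℕ} (ht : t ∈ Ico (N + 2) H) (hρ0 : 0 < ρ) (hρ : ρ < 480480)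
    (hi : i < N) (hp : p.Prime) (hb : BadP p (TT t) (RR ρ i)) : p < 960960 * H := by
  rw [mem_Ico] at ht
  have h1 : TT t < 480480 * H := by unfold TT; omega
  have h2 : RR ρ i < TT t := by unfold TT RR; omega
  have h3 : 0 < RR ρ i := by unfold RR; omega
  have hpp : p ≤ p ^ 2 := Nat.le_self_pow (by norm_num) p
  rcases hb with h | ⟨-, h | h | h⟩
  · have := Nat.le_of_dvd h3 h.2
    omega
  · have h4 : p ^ 2 ∣ TT t - RR ρ i := (Nat.modEq_iff_dvd' h2.le).1 h.symm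
    have := Nat.le_of_dvd (by omega) h4
    omega
  · have := Nat.le_of_dvd (by omega) h
    omega
  · have h5 := Nat.le_of_dvd (Nat.add_pos_right _ (pow_pos h3 2)) h
    by_contra hcon
    push Not at hcon
    have h6 : 2 * TT t ≤ p := by linarith
    nlinarith

open Classical in
lemma sum_bad_le (P : Finset ℕ) (N H : ℕ) (hP : ∀ ρ ∈ P, 0 < ρ ∧ ρ < 480480) :
    ∑ t ∈ Ico (N + 2) H, bad P N t ≤
      ∑ x ∈ P ×ˢ range N, ∑ p ∈ PP (960960 * H),
        ((range H).filter (fun t => BadP p (TT t) (RR x.1 x.2))).card := by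
  have h1 : ∀ t ∈ Ico (N + 2) H, bad P N t ≤
      ∑ x ∈ P ×ˢ range N, ∑ p ∈ PP (960960 * H),
        (if BadP p (TT t) (RR x.1 x.2) then 1 else 0) := by
    intro t ht
    unfold bad
    rw [card_filter]
    apply sum_le_sum
    intro x hx
    rw [mem_product] at hx
    split_ifs with h
    · obtain ⟨p, hp, h17, hb⟩ := h
      have hmem : p ∈ PP (960960 * H) := by
        rw [mem_PP]
        exact ⟨bad_bound ht (hP _ hx.1).1 (hP _ hx.1).2 (mem_range.1 hx.2) hp hb, hp, h17⟩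
      have := single_le_sum (f := fun p => if BadP p (TT t) (RR x.1 x.2) then 1 else 0)
        (fun _ _ => Nat.zero_le _) hmem
      simp only [hb, if_true] at this
      exact this
    · exact Nat.zero_le _
  refine (sum_le_sum h1).trans ?_
  rw [sum_comm]
  apply sum_le_sum
  intro x _
  rw [sum_comm]
  apply sum_le_sum
  intro p _
  rw [card_filter]
  apply sum_le_sum_of_subset_of_nonneg
  · intro t ht
    rw [mem_Ico] at ht
    exact mem_range.2 ht.2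
  · intro _ _ _
    exact Nat.zero_le _

lemma sum_div_le {ρ N H B : ℕ} (hρ0 : 0 < ρ) (hρ : ρ < 480480) :
    ∑ i ∈ range N, ∑ p ∈ PP B, (if p ∣ RR ρ i then (H / p + 1) else 0) ≤
      ∑ p ∈ PP (480480 * N), (N / p + 1) * (H / p + 1) := by
  rw [sum_comm]
  have h1 : ∑ p ∈ PP B, ∑ i ∈ range N, (if p ∣ RR ρ i then (H / p + 1) else 0) ≤
      ∑ p ∈ PP (480480 * N), ∑ i ∈ range N, (if p ∣ RR ρ i then (H / p + 1) else 0) := by
    apply sum_le_sum_of_ne_zero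
    intro p hp hne
    rw [mem_PP] at hp ⊢
    refine ⟨?_, hp.2⟩
    by_contra hcon
    apply hne
    apply sum_eq_zero
    intro i hi
    rw [if_neg]
    intro hd
    have h2 : 0 < RR ρ i := by unfold RR; omega
    have h3 := Nat.le_of_dvd h2 hd
    have h4 := RR_lt hρ (mem_range.1 hi)
    omega
  refine h1.trans (sum_le_sum ?_)
  intro p hp
  rw [mem_PP] at hp
  rw [← sum_filter, sum_const, smul_eq_mul]
  apply Nat.mul_le_mul_right
  classical
  have := cntI hp.2.1 hp.2.2 N ρ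
  convert this

lemma nat_total (P : Finset ℕ) (N H : ℕ) (hP : ∀ ρ ∈ P, 0 < ρ ∧ ρ < 480480) :
    ∑ t ∈ Ico (N + 2) H, bad P N t ≤
      P.card * (N * ∑ p ∈ PP (960960 * H), 4 * (H / p ^ 2 + 1) +
        ∑ p ∈ PP (480480 * N), (N / p + 1) * (H / p + 1)) := by
  classical
  refine (sum_bad_le P N H hP).trans ?_
  have h1 : ∀ x ∈ P ×ˢ range N, ∑ p ∈ PP (960960 * H),
      ((range H).filter (fun t => BadP p (TT t) (RR x.1 x.2))).card ≤
      ∑ p ∈ PP (960960 * H), 4 * (H / p ^ 2 + 1) +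
        ∑ p ∈ PP (960960 * H), (if p ∣ RR x.1 x.2 then (H / p + 1) else 0) := by
    intro x _
    rw [← sum_add_distrib]
    apply sum_le_sum
    intro p hp
    rw [mem_PP] at hp
    have := cntP' hp.2.1 hp.2.2 H (RR x.1 x.2)
    convert this
  refine (sum_le_sum h1).trans ?_
  rw [sum_add_distrib, sum_const, card_product, card_range, smul_eq_mul, sum_product]
  have h2 : ∑ ρ ∈ P, ∑ i ∈ range N, ∑ p ∈ PP (960960 * H),
      (if p ∣ RR ρ i then (H / p + 1) else 0) ≤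
      ∑ ρ ∈ P, ∑ p ∈ PP (480480 * N), (N / p + 1) * (H / p + 1) :=
    sum_le_sum (fun ρ hρ => sum_div_le (hP ρ hρ).1 (hP ρ hρ).2)
  rw [sum_const, smul_eq_mul] at h2
  calc _ ≤ P.card * N * ∑ p ∈ PP (960960 * H), 4 * (H / p ^ 2 + 1) +
        P.card * ∑ p ∈ PP (480480 * N), (N / p + 1) * (H / p + 1) := by
        exact Nat.add_le_add_left h2 _
    _ = _ := by ring

lemma real1 (B H : ℕ) : ((∑ p ∈ PP B, 4 * (H / p ^ 2 + 1) : ℕ) : ℝ) ≤
    H / 8 + 4 * ((PP B).card : ℝ) := by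
  push_cast
  have h1 : ∀ p ∈ PP B, 4 * (((H / p ^ 2 : ℕ) : ℝ) + 1) ≤ 4 * H * (1 / (p : ℝ) ^ 2) + 4 := by
    intro p _
    have : ((H / p ^ 2 : ℕ) : ℝ) ≤ (H : ℝ) / ((p ^ 2 : ℕ) : ℝ) := Nat.cast_div_le
    push_cast at this
    have e : 4 * (H : ℝ) * (1 / (p : ℝ) ^ 2) = 4 * ((H : ℝ) / (p : ℝ) ^ 2) := by ring
    rw [e]
    linarith
  refine (sum_le_sum h1).trans ?_
  rw [sum_add_distrib, ← mul_sum, sum_const, nsmul_eq_mul]
  have h2 := sum_sq B
  have h3 : (0 : ℝ) ≤ H := Nat.cast_nonneg H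
  nlinarith [mul_le_mul_of_nonneg_left h2 h3]

lemma real2 (Y N H : ℕ) : ((∑ p ∈ PP Y, (N / p + 1) * (H / p + 1) : ℕ) : ℝ) ≤
    N * H / 32 + (N + H) * (1 + Real.log Y) + Y := by
  push_cast
  have hN : (0 : ℝ) ≤ N := Nat.cast_nonneg N
  have hH : (0 : ℝ) ≤ H := Nat.cast_nonneg H
  have h1 : ∀ p ∈ PP Y, (((N / p : ℕ) : ℝ) + 1) * (((H / p : ℕ) : ℝ) + 1) ≤
      N * H * (1 / (p : ℝ) ^ 2) + (N + H) * (1 / (p : ℝ)) + 1 := by
    intro p hp
    rw [mem_PP] at hp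
    have hp0 : (0 : ℝ) < p := by exact_mod_cast hp.2.1.pos
    have a1 : ((N / p : ℕ) : ℝ) ≤ (N : ℝ) / p := Nat.cast_div_le
    have a2 : ((H / p : ℕ) : ℝ) ≤ (H : ℝ) / p := Nat.cast_div_le
    have a3 : (0 : ℝ) ≤ ((H / p : ℕ) : ℝ) := Nat.cast_nonneg _
    calc _ ≤ ((N : ℝ) / p + 1) * ((H : ℝ) / p + 1) := by
          apply mul_le_mul (by linarith) (by linarith) (by linarith) (by positivity)
      _ = _ := by field_simp; ring
  refine (sum_le_sum h1).trans ?_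
  rw [sum_add_distrib, sum_add_distrib, ← mul_sum, ← mul_sum, sum_const, nsmul_eq_mul, mul_one]
  have h2 := sum_sq Y
  have h3 := sum_inv Y
  have h4 : ((PP Y).card : ℝ) ≤ Y := by exact_mod_cast card_PP_le Y
  have h5 := mul_le_mul_of_nonneg_left h2 (mul_nonneg hN hH)
  have h6 := mul_le_mul_of_nonneg_left h3 (add_nonneg hN hH)
  linarith

lemma total : ∃ H₀ : ℕ, ∀ (P : Finset ℕ) (N H : ℕ), (∀ ρ ∈ P, 0 < ρ ∧ ρ < 480480) → P.card ≤ 4 →
    10000 ≤ N → H₀ ≤ H → 480480 * N ≤ H →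
    ((∑ t ∈ Ico (N + 2) H, bad P N t : ℕ) : ℝ) ≤ 0.7 * (N * H) := by
  obtain ⟨H₀, hH₀⟩ := primes_small 960960 (1 / 1600) (by norm_num) (by norm_num)
  refine ⟨H₀, fun P N H hP hc hN hH hNH => ?_⟩
  have h1 : ((∑ t ∈ Ico (N + 2) H, bad P N t : ℕ) : ℝ) ≤ _ := Nat.cast_le.2 (nat_total P N H hP)
  refine h1.trans ?_
  rw [Nat.cast_mul, Nat.cast_add, Nat.cast_mul]
  have h2 := real1 (960960 * H) H
  have h3 := real2 (480480 * N) N H
  have h4 := hH₀ H hH
  have h5 := log_small N hN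
  have hPr : (P.card : ℝ) ≤ 4 := by exact_mod_cast hc
  have hP0 : (0 : ℝ) ≤ P.card := Nat.cast_nonneg _
  have hNr : (10000 : ℝ) ≤ N := by exact_mod_cast hN
  have hNH1 : ((480480 * N : ℕ) : ℝ) ≤ H := by exact_mod_cast hNH
  have hH0 : (0 : ℝ) ≤ H := Nat.cast_nonneg _
  have hNH2 : (N : ℝ) ≤ H := by
    have : N ≤ H := by omega
    exact_mod_cast this
  have hlog : 0 ≤ Real.log ((480480 * N : ℕ) : ℝ) := Real.log_natCast_nonneg _
  set Lg := Real.log ((480480 * N : ℕ) : ℝ) with hLg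
  have h6 : ((N : ℝ) + H) * (1 + Lg) ≤ 2 * H * (1 + Lg) := by
    apply mul_le_mul_of_nonneg_right (by linarith) (by linarith)
  have h7 : (H : ℝ) * (3 + 2 * Lg) ≤ H * (0.0075 * N) := mul_le_mul_of_nonneg_left h5 hH0
  have h8 : (N : ℝ) * ((∑ p ∈ PP (960960 * H), 4 * (H / p ^ 2 + 1) : ℕ) : ℝ) ≤
      N * (H / 8 + 4 * (1 / 1600 * H)) := by
    apply mul_le_mul_of_nonneg_left _ (by linarith)
    linarith
  have h9 : (N : ℝ) * ((∑ p ∈ PP (960960 * H), 4 * (H / p ^ 2 + 1) : ℕ) : ℝ) +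
      ((∑ p ∈ PP (480480 * N), (N / p + 1) * (H / p + 1) : ℕ) : ℝ) ≤ 0.17 * (N * H) := by
    nlinarith
  have h10 : (0 : ℝ) ≤ 0.17 * (N * H) := by positivity
  calc (P.card : ℝ) * _ ≤ P.card * (0.17 * (N * H)) := mul_le_mul_of_nonneg_left h9 hP0
    _ ≤ 4 * (0.17 * (N * H)) := mul_le_mul_of_nonneg_right hPr h10
    _ ≤ 0.7 * (N * H) := by nlinarith [mul_nonneg (show (0 : ℝ) ≤ N by linarith) hH0]

open Classical in
/-- a positive proportion of the `t` is good -/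
lemma good : ∃ H₀ : ℕ, ∀ (P : Finset ℕ) (N H : ℕ), (∀ ρ ∈ P, 0 < ρ ∧ ρ < 480480) → P.card ≤ 4 →
    10000 ≤ N → H₀ ≤ H → 480480 * N ≤ H →
    0.2 * (H : ℝ) ≤ (((Ico (N + 2) H).filter (fun t => (bad P N t : ℝ) ≤ 0.9 * N)).card : ℝ) := by
  obtain ⟨H₀, hH₀⟩ := total
  refine ⟨H₀, fun P N H hP hc hN hH hNH => ?_⟩
  have h1 := hH₀ P N H hP hc hN hH hNH
  have hNr : (10000 : ℝ) ≤ N := by exact_mod_cast hN
  have hNH1 : ((480480 * N : ℕ) : ℝ) ≤ H := by exact_mod_cast hNH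
  push_cast at hNH1 h1
  set G := (Ico (N + 2) H).filter (fun t => (bad P N t : ℝ) ≤ 0.9 * N) with hG
  set G' := (Ico (N + 2) H).filter (fun t => ¬ (bad P N t : ℝ) ≤ 0.9 * N) with hG'
  have h2 : G.card + G'.card = (Ico (N + 2) H).card := card_filter_add_card_filter_not _
  rw [Nat.card_Ico] at h2
  have h3 : (G'.card : ℝ) * (0.9 * N) ≤ ∑ t ∈ Ico (N + 2) H, (bad P N t : ℝ) := by
    calc (G'.card : ℝ) * (0.9 * N) = ∑ t ∈ G', (0.9 * N : ℝ) := by
          rw [sum_const, nsmul_eq_mul]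
      _ ≤ ∑ t ∈ G', (bad P N t : ℝ) := by
          apply sum_le_sum
          intro t ht
          exact (not_le.1 (mem_filter.1 ht).2).le
      _ ≤ _ := sum_le_sum_of_subset_of_nonneg (filter_subset _ _)
          (fun _ _ _ => Nat.cast_nonneg _)
  have h4 : (G'.card : ℝ) * 0.9 ≤ 0.7 * H := by
    have h5 : ((G'.card : ℝ) * 0.9) * N ≤ (0.7 * H) * N := by linarith
    exact le_of_mul_le_mul_right h5 (by linarith)
  have h6 : (G.card : ℝ) + G'.card = (H : ℝ) - (N + 2) := by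
    have : G.card + G'.card + (N + 2) = H := by omega
    have h7 : ((G.card + G'.card + (N + 2) : ℕ) : ℝ) = H := by exact_mod_cast this
    push_cast at h7
    linarith
  linarith

open Classical in
/-- for a good `t` there are many good `i` -/
lemma many {P : Finset ℕ} {N t ρ : ℕ} (hρ : ρ ∈ P) (hb : (bad P N t : ℝ) ≤ 0.9 * N) :
    0.1 * (N : ℝ) ≤ (((range N).filter
      (fun i => ∀ p : ℕ, p.Prime → 17 ≤ p → ¬ BadP p (TT t) (RR ρ i))).card : ℝ) := by
  set A := (range N).filter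
      (fun i => ∀ p : ℕ, p.Prime → 17 ≤ p → ¬ BadP p (TT t) (RR ρ i)) with hA
  set A' := (range N).filter
      (fun i => ¬ ∀ p : ℕ, p.Prime → 17 ≤ p → ¬ BadP p (TT t) (RR ρ i)) with hA'
  have h1 : A.card + A'.card = (range N).card := card_filter_add_card_filter_not _
  rw [card_range] at h1
  have h2 : A'.card ≤ bad P N t := by
    unfold bad
    apply card_le_card_of_injOn (fun i => (ρ, i))
    · intro i hi
      have hi' := mem_filter.1 (mem_coe.1 hi)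
      apply mem_coe.2
      rw [mem_filter, mem_product]
      refine ⟨⟨hρ, hi'.1⟩, ?_⟩
      have h3 := hi'.2
      push Not at h3
      obtain ⟨p, hp, h17, h⟩ := h3
      exact ⟨p, hp, h17, h⟩
    · intro i _ j _ h
      exact (Prod.mk.inj h).2
  have h3 : (A.card : ℝ) + A'.card = N := by exact_mod_cast h1
  have h4 : (A'.card : ℝ) ≤ bad P N t := by exact_mod_cast h2
  linarith

end Pool.Agent.N737.BC
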