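import Mathlib

set_option autoImplicit false

namespace Pool.Agent.N737.BC

open Finset

/-- the common modulus `32 * 3 * 5 * 7 * 11 * 13` -/
def TT (t : ℕ) : ℕ := 480480 * t + 345345

def RR (ρ i : ℕ) : ℕ := 480480 * i + ρ

/-- sets of pairwise congruent integers are small -/
lemma card_cong {H q : ℕ} (hq : 0 < q) (S : Finset ℕ) (hS : ∀ t ∈ S, t < H)
    (h : ∀ t ∈ S, ∀ t' ∈ S, t % q = t' % q) : S.card ≤ H / q + 1 := by
  have : S.card ≤ (range (H / q + 1)).card := by
    apply card_le_card_of_injOn (fun t => t / q)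
    · intro t ht
      have h1 := Nat.div_le_div_right (c := q) (hS t ht).le
      simp only [coe_range, Set.mem_Iio]
      omega
    · intro t ht t' ht' he
      have h1 := h t ht t' ht'
      have h2 : t / q = t' / q := he
      rw [← Nat.div_add_mod t q, ← Nat.div_add_mod t' q, h1, h2]
  simpa using this

lemma cop_of_ge {p : ℕ} (hp : p.Prime) (h17 : 17 ≤ p) : Nat.Coprime p 480480 := by
  rw [Nat.Prime.coprime_iff_not_dvd hp]
  intro h
  have e : (480480 : ℕ) = 2 ^ 5 * (3 * (5 * (7 * (11 * 13)))) := by norm_num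
  rw [e] at h
  rcases (Nat.Prime.dvd_mul hp).1 h with h | h
  · have := Nat.le_of_dvd (by norm_num) (hp.dvd_of_dvd_pow h); omega
  rcases (Nat.Prime.dvd_mul hp).1 h with h | h
  · have := Nat.le_of_dvd (by norm_num) h; omega
  rcases (Nat.Prime.dvd_mul hp).1 h with h | h
  · have := Nat.le_of_dvd (by norm_num) h; omega
  rcases (Nat.Prime.dvd_mul hp).1 h with h | h
  · have := Nat.le_of_dvd (by norm_num) h; omega
  rcases (Nat.Prime.dvd_mul hp).1 h with h | h
  · have := Nat.le_of_dvd (by norm_num) h; omega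
  · have := Nat.le_of_dvd (by norm_num) h; omega

/-- the bad events for the prime `p` -/
def BadP (p T r : ℕ) : Prop :=
  (p ∣ T ∧ p ∣ r) ∨ (¬ p ∣ r ∧ (T ≡ r [MOD p ^ 2] ∨ p ^ 2 ∣ T + r ∨ p ^ 2 ∣ T ^ 2 + r ^ 2))

lemma TT_cong {q t t' : ℕ} (hq : Nat.Coprime q 480480) (h : TT t ≡ TT t' [MOD q]) :
    t % q = t' % q := by
  have h1 : 480480 * t ≡ 480480 * t' [MOD q] := by
    unfold TT at h
    exact Nat.ModEq.add_right_cancel' _ h
  exact Nat.ModEq.cancel_left_of_coprime hq h1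

lemma RR_cong {q ρ i i' : ℕ} (hq : Nat.Coprime q 480480) (h : RR ρ i ≡ RR ρ i' [MOD q]) :
    i % q = i' % q := by
  have h1 : 480480 * i ≡ 480480 * i' [MOD q] := by
    unfold RR at h
    exact Nat.ModEq.add_right_cancel' _ h
  exact Nat.ModEq.cancel_left_of_coprime hq h1

lemma modEq_of_dvd_add {q a b c : ℕ} (h1 : q ∣ a + c) (h2 : q ∣ b + c) : a ≡ b [MOD q] := by
  have h3 : a + c ≡ b + c [MOD q] :=
    ((Nat.modEq_zero_iff_dvd).2 h1).trans ((Nat.modEq_zero_iff_dvd).2 h2).symm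
  exact Nat.ModEq.add_right_cancel' _ h3

open Classical in
lemma cntA {p : ℕ} (hp : p.Prime) (h17 : 17 ≤ p) (H : ℕ) :
    ((range H).filter (fun t => p ∣ TT t)).card ≤ H / p + 1 := by
  apply card_cong hp.pos
  · intro t ht; exact mem_range.1 (mem_filter.1 ht).1
  · intro t ht t' ht'
    apply TT_cong (cop_of_ge hp h17)
    exact ((Nat.modEq_zero_iff_dvd).2 (mem_filter.1 ht).2).trans
      ((Nat.modEq_zero_iff_dvd).2 (mem_filter.1 ht').2).symm

open Classical in
lemma cntI {p : ℕ} (hp : p.Prime) (h17 : 17 ≤ p) (N ρ : ℕ) :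
    ((range N).filter (fun i => p ∣ RR ρ i)).card ≤ N / p + 1 := by
  apply card_cong hp.pos
  · intro t ht; exact mem_range.1 (mem_filter.1 ht).1
  · intro t ht t' ht'
    apply RR_cong (cop_of_ge hp h17) (ρ := ρ)
    exact ((Nat.modEq_zero_iff_dvd).2 (mem_filter.1 ht).2).trans
      ((Nat.modEq_zero_iff_dvd).2 (mem_filter.1 ht').2).symm

lemma sq_split {p : ℕ} (hp : p.Prime) (h17 : 17 ≤ p) {a b : ℕ} (ha : ¬ p ∣ a)
    (h : p ^ 2 ∣ a ^ 2 + b) {a' : ℕ} (h' : p ^ 2 ∣ a' ^ 2 + b) :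
    a' ≡ a [MOD p ^ 2] ∨ p ^ 2 ∣ a' + a := by
  have hpz : Prime (p : ℤ) := Nat.prime_iff_prime_int.1 hp
  have h1 : ((p : ℤ) ^ 2) ∣ (a : ℤ) ^ 2 + b := by exact_mod_cast h
  have h2 : ((p : ℤ) ^ 2) ∣ (a' : ℤ) ^ 2 + b := by exact_mod_cast h'
  have h3 : ((p : ℤ) ^ 2) ∣ ((a' : ℤ) - a) * ((a' : ℤ) + a) := by
    have h4 := dvd_sub h2 h1
    have e : ((a' : ℤ) ^ 2 + b) - ((a : ℤ) ^ 2 + b) = ((a' : ℤ) - a) * ((a' : ℤ) + a) := by ring
    rwa [e] at h4
  by_cases hd : (p : ℤ) ∣ (a' : ℤ) - a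
  · have hnd : ¬ (p : ℤ) ∣ (a' : ℤ) + a := by
      intro hd2
      have h5 : (p : ℤ) ∣ 2 * (a : ℤ) := by
        have := dvd_sub hd2 hd
        have e : ((a' : ℤ) + a) - ((a' : ℤ) - a) = 2 * (a : ℤ) := by ring
        rwa [e] at this
      have h6 : p ∣ 2 * a := by exact_mod_cast h5
      rcases (Nat.Prime.dvd_mul hp).1 h6 with h7 | h7
      · have := Nat.le_of_dvd (by norm_num) h7; omega
      · exact ha h7
    have hc : IsCoprime ((p : ℤ) ^ 2) ((a' : ℤ) + a) :=
      IsCoprime.pow_left ((Prime.coprime_iff_not_dvd hpz).2 hnd)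
    have h8 := hc.dvd_of_dvd_mul_right h3
    left
    have h9 : ((a : ℤ)) ≡ (a' : ℤ) [ZMOD ((p : ℤ) ^ 2)] := (Int.modEq_iff_dvd).2 h8
    have h10 : a ≡ a' [MOD p ^ 2] := by
      apply (Int.natCast_modEq_iff).1
      exact_mod_cast h9
    exact h10.symm
  · have hc : IsCoprime ((p : ℤ) ^ 2) ((a' : ℤ) - a) :=
      IsCoprime.pow_left ((Prime.coprime_iff_not_dvd hpz).2 hd)
    have h8 := hc.dvd_of_dvd_mul_left h3
    right
    exact_mod_cast h8

open Classical in
/-- at most `4 (H / p ^ 2 + 1)` values of `t` are bad for a prime which does not divide `r` -/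
lemma cntP {p : ℕ} (hp : p.Prime) (h17 : 17 ≤ p) (H r : ℕ) (hr : ¬ p ∣ r) :
    ((range H).filter (fun t => BadP p (TT t) r)).card ≤ 4 * (H / p ^ 2 + 1) := by
  have hq : Nat.Coprime (p ^ 2) 480480 := Nat.Coprime.pow_left 2 (cop_of_ge hp h17)
  have hq0 : 0 < p ^ 2 := pow_pos hp.pos 2
  set S1 := (range H).filter (fun t => TT t ≡ r [MOD p ^ 2]) with hS1
  set S2 := (range H).filter (fun t => p ^ 2 ∣ TT t + r) with hS2
  set S3 := (range H).filter (fun t => p ^ 2 ∣ (TT t) ^ 2 + r ^ 2) with hS3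
  have h1 : S1.card ≤ H / p ^ 2 + 1 := by
    apply card_cong hq0
    · intro t ht; exact mem_range.1 (mem_filter.1 ht).1
    · intro t ht t' ht'
      exact TT_cong hq ((mem_filter.1 ht).2.trans (mem_filter.1 ht').2.symm)
  have h2 : S2.card ≤ H / p ^ 2 + 1 := by
    apply card_cong hq0
    · intro t ht; exact mem_range.1 (mem_filter.1 ht).1
    · intro t ht t' ht'
      exact TT_cong hq (modEq_of_dvd_add (mem_filter.1 ht).2 (mem_filter.1 ht').2)
  have h3 : S3.card ≤ 2 * (H / p ^ 2 + 1) := by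
    rcases S3.eq_empty_or_nonempty with h | ⟨s, hs⟩
    · rw [h]; simp
    · have hs2 := (mem_filter.1 hs).2
      have hsT : ¬ p ∣ TT s := by
        intro hd
        have h5 : p ∣ (TT s) ^ 2 + r ^ 2 := (dvd_pow_self p (by norm_num)).trans hs2
        have h6 : p ∣ r ^ 2 := (Nat.dvd_add_right (hd.trans (dvd_pow_self _ (by norm_num)))).1 h5
        exact hr (hp.dvd_of_dvd_pow h6)
      have hsub : S3 ⊆ (range H).filter (fun t => TT t ≡ TT s [MOD p ^ 2]) ∪
          (range H).filter (fun t => p ^ 2 ∣ TT t + TT s) := by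
        intro t ht
        have ht2 := (mem_filter.1 ht).2
        rcases sq_split hp h17 hsT hs2 ht2 with h | h
        · exact mem_union_left _ (mem_filter.2 ⟨(mem_filter.1 ht).1, h⟩)
        · exact mem_union_right _ (mem_filter.2 ⟨(mem_filter.1 ht).1, h⟩)
      have c1 : ((range H).filter (fun t => TT t ≡ TT s [MOD p ^ 2])).card ≤ H / p ^ 2 + 1 := by
        apply card_cong hq0
        · intro t ht; exact mem_range.1 (mem_filter.1 ht).1
        · intro t ht t' ht'
          exact TT_cong hq ((mem_filter.1 ht).2.trans (mem_filter.1 ht').2.symm)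
      have c2 : ((range H).filter (fun t => p ^ 2 ∣ TT t + TT s)).card ≤ H / p ^ 2 + 1 := by
        apply card_cong hq0
        · intro t ht; exact mem_range.1 (mem_filter.1 ht).1
        · intro t ht t' ht'
          exact TT_cong hq (modEq_of_dvd_add (mem_filter.1 ht).2 (mem_filter.1 ht').2)
      have := (card_le_card hsub).trans (card_union_le _ _)
      omega
  have hsub : (range H).filter (fun t => BadP p (TT t) r) ⊆ S1 ∪ (S2 ∪ S3) := by
    intro t ht
    have ht1 := (mem_filter.1 ht).1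
    rcases (mem_filter.1 ht).2 with h | ⟨-, h | h | h⟩
    · exact absurd h.2 hr
    · exact mem_union_left _ (mem_filter.2 ⟨ht1, h⟩)
    · exact mem_union_right _ (mem_union_left _ (mem_filter.2 ⟨ht1, h⟩))
    · exact mem_union_right _ (mem_union_right _ (mem_filter.2 ⟨ht1, h⟩))
  have h4 := card_le_card hsub
  have h5 := card_union_le S1 (S2 ∪ S3)
  have h6 := card_union_le S2 S3
  omega

open Classical in
lemma cntP' {p : ℕ} (hp : p.Prime) (h17 : 17 ≤ p) (H r : ℕ) :
    ((range H).filter (fun t => BadP p (TT t) r)).card ≤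
      4 * (H / p ^ 2 + 1) + (if p ∣ r then (H / p + 1) else 0) := by
  by_cases hr : p ∣ r
  · rw [if_pos hr]
    have : ((range H).filter (fun t => BadP p (TT t) r)).card ≤ H / p + 1 := by
      refine le_trans (card_le_card ?_) (cntA hp h17 H)
      intro t ht
      have ht1 := (mem_filter.1 ht).1
      rcases (mem_filter.1 ht).2 with h | h
      · exact mem_filter.2 ⟨ht1, h.1⟩
      · exact absurd hr h.1
    omega
  · rw [if_neg hr]
    exact cntP hp h17 H r hr

end Pool.Agent.N737.BC
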