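import Pool.Agent.N737.BC.Fin

set_option autoImplicit false

namespace Pool.Agent.N737.BC

open Finset

lemma total2 : ∃ H₀ : ℕ, ∀ (P : Finset ℕ) (N H : ℕ), (∀ ρ ∈ P, 0 < ρ ∧ ρ < 480480) → P.card ≤ 2 →
    10000 ≤ N → H₀ ≤ H → 480480 * N ≤ H →
    ((∑ t ∈ Ico (N + 2) H, bad P N t : ℕ) : ℝ) ≤ 0.34 * (N * H) := by
  obtain ⟨H₀, hH₀⟩ := primes_small 960960 (1 / 1600) (by norm_num) (by norm_num)
  refine ⟨H₀, fun P N H hP hc hN hH hNH => ?_⟩
  have h1 : ((∑ t ∈ Ico (N + 2) H, bad P N t : ℕ) : ℝ) ≤ _ := Nat.cast_le.2 (nat_total P N H hP)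
  refine h1.trans ?_
  rw [Nat.cast_mul, Nat.cast_add, Nat.cast_mul]
  have h2 := real1 (960960 * H) H
  have h3 := real2 (480480 * N) N H
  have h4 := hH₀ H hH
  have h5 := log_small N hN
  have hPr : (P.card : ℝ) ≤ 2 := by exact_mod_cast hc
  have hP0 : (0 : ℝ) ≤ P.card := Nat.cast_nonneg _
  have hNr : (10000 : ℝ) ≤ N := by exact_mod_cast hN
  have hNH1 : ((480480 * N : ℕ) : ℝ) ≤ H := by exact_mod_cast hNH
  have hH0 : (0 : ℝ) ≤ H := Nat.cast_nonneg _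
  have hNH2 : (N : ℝ) ≤ H := by
    have : N ≤ H := by omega
    exact_mod_cast this
  have hlog : 0 ≤ Real.log ((480480 * N : ℕ) : ℝ) := Real.log_natCast_nonneg _
  set Lg := Real.log ((480480 * N : ℕ) : ℝ) with hLg
  have h6 : ((N : ℝ) + H) * (1 + Lg) ≤ 2 * H * (1 + Lg) := by
    apply mul_le_mul_of_nonneg_right (by linarith) (by linarith)
  have h7 : (H : ℝ) * (3 + 2 * Lg) ≤ H * (0.0075 * N) := mul_le_mul_of_nonneg_left h5 hH0
  have h8 : (N : ℝ) * ((∑ p ∈ PP (960960 * H), 4 * (H / p ^ 2 + 1) : ℕ) : ℝ) ≤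
      N * (H / 8 + 4 * (1 / 1600 * H)) := by
    apply mul_le_mul_of_nonneg_left _ (by linarith)
    linarith
  have h9 : (N : ℝ) * ((∑ p ∈ PP (960960 * H), 4 * (H / p ^ 2 + 1) : ℕ) : ℝ) +
      ((∑ p ∈ PP (480480 * N), (N / p + 1) * (H / p + 1) : ℕ) : ℝ) ≤ 0.17 * (N * H) := by
    nlinarith
  have h10 : (0 : ℝ) ≤ 0.17 * (N * H) := by positivity
  calc (P.card : ℝ) * _ ≤ P.card * (0.17 * (N * H)) := mul_le_mul_of_nonneg_left h9 hP0
    _ ≤ 2 * (0.17 * (N * H)) := mul_le_mul_of_nonneg_right hPr h10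
    _ = 0.34 * (N * H) := by ring

open Classical in
lemma good2 : ∃ H₀ : ℕ, ∀ (P : Finset ℕ) (N H : ℕ), (∀ ρ ∈ P, 0 < ρ ∧ ρ < 480480) → P.card ≤ 2 →
    10000 ≤ N → H₀ ≤ H → 480480 * N ≤ H →
    0.2 * (H : ℝ) ≤ (((Ico (N + 2) H).filter (fun t => (bad P N t : ℝ) ≤ 0.45 * N)).card : ℝ) := by
  obtain ⟨H₀, hH₀⟩ := total2
  refine ⟨H₀, fun P N H hP hc hN hH hNH => ?_⟩
  have h1 := hH₀ P N H hP hc hN hH hNH
  have hNr : (10000 : ℝ) ≤ N := by exact_mod_cast hN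
  have hNH1 : ((480480 * N : ℕ) : ℝ) ≤ H := by exact_mod_cast hNH
  push_cast at hNH1 h1
  set G := (Ico (N + 2) H).filter (fun t => (bad P N t : ℝ) ≤ 0.45 * N) with hG
  set G' := (Ico (N + 2) H).filter (fun t => ¬ (bad P N t : ℝ) ≤ 0.45 * N) with hG'
  have h2 : G.card + G'.card = (Ico (N + 2) H).card := card_filter_add_card_filter_not _
  rw [Nat.card_Ico] at h2
  have h3 : (G'.card : ℝ) * (0.45 * N) ≤ ∑ t ∈ Ico (N + 2) H, (bad P N t : ℝ) := by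
    calc (G'.card : ℝ) * (0.45 * N) = ∑ t ∈ G', (0.45 * N : ℝ) := by
          rw [sum_const, nsmul_eq_mul]
      _ ≤ ∑ t ∈ G', (bad P N t : ℝ) := by
          apply sum_le_sum
          intro t ht
          exact (not_le.1 (mem_filter.1 ht).2).le
      _ ≤ _ := sum_le_sum_of_subset_of_nonneg (filter_subset _ _)
          (fun _ _ _ => Nat.cast_nonneg _)
  have h4 : (G'.card : ℝ) * 0.45 ≤ 0.34 * H := by
    have h5 : ((G'.card : ℝ) * 0.45) * N ≤ (0.34 * H) * N := by linarith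
    exact le_of_mul_le_mul_right h5 (by linarith)
  have h6 : (G.card : ℝ) + G'.card = (H : ℝ) - (N + 2) := by
    have : G.card + G'.card + (N + 2) = H := by omega
    have h7 : ((G.card + G'.card + (N + 2) : ℕ) : ℝ) = H := by exact_mod_cast this
    push_cast at h7
    linarith
  linarith

lemma card_parity (M ε : ℕ) (hε : ε < 2) :
    ((range (2 * M)).filter (fun i => i % 2 = ε)).card = M := by
  induction M with
  | zero => simp
  | succ M ih =>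
    have e : 2 * (M + 1) = 2 * M + 1 + 1 := by ring
    rw [e, range_add_one, filter_insert, range_add_one, filter_insert]
    have hε' : ε = 0 ∨ ε = 1 := by omega
    have h1 : (2 * M + 1) % 2 = 1 := by omega
    have h2 : (2 * M) % 2 = 0 := by omega
    rcases hε' with rfl | rfl
    · rw [if_neg (by omega), if_pos h2, card_insert_of_notMem, ih]
      simp
    · rw [if_pos h1, if_neg (by omega), card_insert_of_notMem, ih]
      simp

open Classical in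
lemma many2 {P : Finset ℕ} {M t ρ ε : ℕ} (hε : ε < 2) (hρ : ρ ∈ P)
    (hb : (bad P (2 * M) t : ℝ) ≤ 0.45 * ((2 * M : ℕ) : ℝ)) :
    0.05 * ((2 * M : ℕ) : ℝ) ≤ (((range (2 * M)).filter
      (fun i => i % 2 = ε ∧ ∀ p : ℕ, p.Prime → 17 ≤ p → ¬ BadP p (TT t) (RR ρ i))).card : ℝ) := by
  set A := (range (2 * M)).filter
      (fun i => i % 2 = ε ∧ ∀ p : ℕ, p.Prime → 17 ≤ p → ¬ BadP p (TT t) (RR ρ i)) with hA
  set A' := (range (2 * M)).filter
      (fun i => ¬ ∀ p : ℕ, p.Prime → 17 ≤ p → ¬ BadP p (TT t) (RR ρ i)) with hA'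
  have h1 : M ≤ A.card + A'.card := by
    rw [← card_parity M ε hε]
    refine (card_le_card ?_).trans (card_union_le _ _)
    intro i hi
    rw [mem_filter] at hi
    rw [mem_union, hA, hA', mem_filter, mem_filter]
    by_cases h : ∀ p : ℕ, p.Prime → 17 ≤ p → ¬ BadP p (TT t) (RR ρ i)
    · exact Or.inl ⟨hi.1, hi.2, h⟩
    · exact Or.inr ⟨hi.1, h⟩
  have h2 : A'.card ≤ bad P (2 * M) t := by
    unfold bad
    apply card_le_card_of_injOn (fun i => (ρ, i))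
    · intro i hi
      have hi' := mem_filter.1 (mem_coe.1 hi)
      apply mem_coe.2
      rw [mem_filter, mem_product]
      refine ⟨⟨hρ, hi'.1⟩, ?_⟩
      have h3 := hi'.2
      push Not at h3
      obtain ⟨p, hp, h17, h⟩ := h3
      exact ⟨p, hp, h17, h⟩
    · intro i _ j _ h
      exact (Prod.mk.inj h).2
  have h3 : (M : ℝ) ≤ (A.card : ℝ) + A'.card := by exact_mod_cast h1
  have h4 : (A'.card : ℝ) ≤ bad P (2 * M) t := by exact_mod_cast h2
  push_cast at hb ⊢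
  linarith

lemma TT_pow2 (t : ℕ) : ∃ A, TT t ^ 4 = 128 * A + 1 ∧ A % 2 = t % 2 := by
  refine ⟨8192 * (15015 * t + 10792) ^ 4 + 1024 * (15015 * t + 10792) ^ 3 +
    48 * (15015 * t + 10792) ^ 2 + (15015 * t + 10792), ?_, ?_⟩
  · unfold TT
    ring
  · generalize (15015 * t + 10792) ^ 4 = x
    generalize (15015 * t + 10792) ^ 3 = y
    generalize (15015 * t + 10792) ^ 2 = z
    omega

lemma RR_pow2 (ρ i : ℕ) (hρ : ρ % 2 = 1) : ∃ B, RR ρ i ^ 4 = 128 * B + ρ ^ 4 ∧ B % 2 = i % 2 := by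
  refine ⟨8192 * (15015 * i) ^ 4 + 1024 * ((15015 * i) ^ 3 * ρ) +
    48 * ((15015 * i) ^ 2 * ρ ^ 2) + (15015 * i) * ρ ^ 3, ?_, ?_⟩
  · unfold RR
    ring
  · generalize (15015 * i) ^ 4 = x
    generalize (15015 * i) ^ 3 * ρ = y
    generalize (15015 * i) ^ 2 * ρ ^ 2 = z
    have h1 : ((15015 * i) * ρ ^ 3) % 2 = i % 2 := by
      rw [Nat.mul_mod, Nat.pow_mod, hρ]
      simp
      omega
    omega

/-- the class modulo `16` -/
lemma cls16 {ρ c t i n : ℕ} (hi : i % 2 = (if (ρ = 71 ∧ c = 10) ∨ (ρ = 23 ∧ c = 14) then t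
      else t + 1) % 2)
    (h : (ρ = 71 ∧ c = 2) ∨ (ρ = 71 ∧ c = 10) ∨ (ρ = 23 ∧ c = 6) ∨ (ρ = 23 ∧ c = 14))
    (hn : 16 * n + RR ρ i ^ 4 = TT t ^ 4) : n % 16 = c := by
  obtain ⟨A, hA, hA2⟩ := TT_pow2 t
  have hρ : ρ % 2 = 1 := by rcases h with h | h | h | h <;> rw [h.1]
  obtain ⟨B, hB, hB2⟩ := RR_pow2 ρ i hρ
  rw [hA, hB] at hn
  rcases h with ⟨rfl, rfl⟩ | ⟨rfl, rfl⟩ | ⟨rfl, rfl⟩ | ⟨rfl, rfl⟩ <;>
    norm_num at hn hi <;> omega

lemma cls16_bd {ρ c : ℕ}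
    (h : (ρ = 71 ∧ c = 2) ∨ (ρ = 71 ∧ c = 10) ∨ (ρ = 23 ∧ c = 6) ∨ (ρ = 23 ∧ c = 14)) :
    0 < ρ ∧ ρ < 480480 ∧ ρ % 2 = 1 ∧ Nat.Coprime ρ 15015 ∧ c % 4 ≠ 0 := by
  rcases h with ⟨rfl, rfl⟩ | ⟨rfl, rfl⟩ | ⟨rfl, rfl⟩ | ⟨rfl, rfl⟩ <;>
    refine ⟨by norm_num, by norm_num, by norm_num, by norm_num, by norm_num⟩

/-- a good `t` gives a cluster in a class modulo `16` -/
lemma cluster16 {P : Finset ℕ} {K t ρ c : ℕ} (hK : 1 ≤ K) (ht : 10000 * K + 2 ≤ t) (hρ : ρ ∈ P)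
    (hc : (ρ = 71 ∧ c = 2) ∨ (ρ = 71 ∧ c = 10) ∨ (ρ = 23 ∧ c = 6) ∨ (ρ = 23 ∧ c = 14))
    (hb : (bad P (10000 * K) t : ℝ) ≤ 0.45 * ((10000 * K : ℕ) : ℝ)) :
    K ≤ {m : ℕ | zz (10000 * K) t ≤ m ∧ (m : ℝ) ≤ zz (10000 * K) t + 4804800000 ^ 4 * (K : ℝ) ^ 4 ∧
      m % 16 = c ∧ Squarefree m ∧ Con m}.ncard := by
  classical
  obtain ⟨hρ0, hρ1, hρ2, hρ3, hc4⟩ := cls16_bd hc
  obtain ⟨ε, hε, hεd⟩ : ∃ ε, ε < 2 ∧
      ε = (if (ρ = 71 ∧ c = 10) ∨ (ρ = 23 ∧ c = 14) then t else t + 1) % 2 :=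
    ⟨_, Nat.mod_lt _ (by norm_num), rfl⟩
  have e2 : 10000 * K = 2 * (5000 * K) := by ring
  have h1 := many2 (M := 5000 * K) hε hρ (by rw [← e2]; exact hb)
  rw [← e2] at h1
  set N := 10000 * K with hN
  set A := (range N).filter
      (fun i => i % 2 = ε ∧ ∀ p : ℕ, p.Prime → 17 ≤ p → ¬ BadP p (TT t) (RR ρ i)) with hA
  have hKA : K ≤ A.card := by
    have h2 : (K : ℝ) ≤ A.card := by
      refine le_trans ?_ h1
      rw [hN]
      push_cast
      have : (0 : ℝ) ≤ K := Nat.cast_nonneg K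
      linarith
    exact_mod_cast h2
  refine hKA.trans ?_
  have hlt : ∀ i ∈ A, RR ρ i < TT t := by
    intro i hi
    have h3 := RR_lt hρ1 (mem_range.1 (mem_filter.1 hi).1)
    exact h3.trans (TT_gt ht)
  have hex : ∀ i, ∃ n, i ∈ A → (0 < n ∧ 16 * n + RR ρ i ^ 4 = TT t ^ 4) := by
    intro i
    by_cases hi : i ∈ A
    · obtain ⟨n, hn⟩ := ex_n hρ2 (hlt i hi)
      exact ⟨n, fun _ => hn⟩
    · exact ⟨0, fun h => absurd h hi⟩
  choose f hf using hex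
  have hinj : Set.InjOn f (A : Set ℕ) := by
    intro i hi j hj hij
    have e1 := (hf i hi).2
    have e2 := (hf j hj).2
    rw [hij] at e1
    have e3 : RR ρ i ^ 4 = RR ρ j ^ 4 := by omega
    have e4 : RR ρ i = RR ρ j := Nat.pow_left_injective (by norm_num : (4 : ℕ) ≠ 0) e3
    unfold RR at e4
    omega
  rw [← card_image_of_injOn hinj, ← Set.ncard_coe_finset]
  apply Set.ncard_le_ncard
  · intro m hm
    rw [coe_image] at hm
    obtain ⟨i, hi, rfl⟩ := hm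
    have hi' : i ∈ A := hi
    have e1 := (hf i hi').2
    have h3 := RR_lt hρ1 (mem_range.1 (mem_filter.1 hi').1)
    have h4 : RR ρ i ^ 4 ≤ (480480 * N) ^ 4 := Nat.pow_le_pow_left h3.le 4
    have h5 : 1 ≤ (480480 * N) ^ 4 := Nat.one_le_pow _ _ (by omega)
    have hmod := cls16 (by rw [← hεd]; exact (mem_filter.1 hi').2.1) hc e1
    have hzz : zz N t = (TT t ^ 4 - (480480 * N) ^ 4) / 16 := rfl
    have h6 : (480480 * N) ^ 4 ≤ TT t ^ 4 := Nat.pow_le_pow_left (TT_gt ht).le 4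
    have hle : zz N t ≤ f i := by
      rw [hzz]
      generalize TT t ^ 4 = a at *
      generalize (480480 * N) ^ 4 = q at *
      generalize RR ρ i ^ 4 = b at *
      omega
    have hge : f i ≤ zz N t + (480480 * N) ^ 4 := by
      rw [hzz]
      generalize TT t ^ 4 = a at *
      generalize (480480 * N) ^ 4 = q at *
      generalize RR ρ i ^ 4 = b at *
      omega
    refine ⟨hle, ?_, hmod, ?_, ?_⟩
    · have h7 : ((f i : ℕ) : ℝ) ≤ ((zz N t + (480480 * N) ^ 4 : ℕ) : ℝ) := by exact_mod_cast hge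
      refine h7.trans (le_of_eq ?_)
      rw [hN]
      push_cast
      ring
    · apply sqf hρ3 e1 (by omega)
      exact (mem_filter.1 hi').2.2
    · exact area (by unfold RR; omega) (hlt i hi') e1
  · apply Set.Finite.subset (Set.finite_Iic ⌊(zz N t : ℝ) + 4804800000 ^ 4 * (K : ℝ) ^ 4⌋₊)
    intro m hm
    exact Nat.le_floor hm.2.1

theorem clusters16 :
    ∃ c C X₀ : ℝ, 0 < c ∧ 0 < C ∧ ∀ X : ℝ, X₀ ≤ X → ∀ K : ℕ, 1 ≤ K → (K : ℝ) ≤ c * X ^ (1 / 4 : ℝ) →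
      c * X ^ (1 / 4 : ℝ) ≤ (({n : ℕ | (n : ℝ) ≤ X ∧
        ∀ r : ℕ, (r = 2 ∨ r = 6 ∨ r = 10 ∨ r = 14) →
        K ≤ {m : ℕ | n ≤ m ∧ (m : ℝ) ≤ n + C * (K : ℝ) ^ 4 ∧ m % 16 = r ∧ Squarefree m ∧
          Con m}.ncard}.ncard : ℕ) : ℝ) := by
  classical
  obtain ⟨H₀, hH₀⟩ := good2
  refine ⟨1 / 10 ^ 16, 4804800000 ^ 4, (480480 * ((H₀ : ℝ) + 2)) ^ 4, by norm_num, by norm_num, ?_⟩
  intro X hX K hK hKX
  have hH00 : (0 : ℝ) ≤ H₀ := Nat.cast_nonneg _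
  have hX0 : 0 ≤ X := le_trans (by positivity) hX
  set Y := X ^ (1 / 4 : ℝ) with hY
  have hY0 : 0 ≤ Y := Real.rpow_nonneg hX0 _
  have hY4 : Y ^ 4 = X := by
    rw [hY, ← Real.rpow_natCast, ← Real.rpow_mul hX0]
    norm_num
  have hYb : 480480 * ((H₀ : ℝ) + 2) ≤ Y := by
    rw [← hY4] at hX
    exact (pow_le_pow_iff_left₀ (by positivity) hY0 (by norm_num)).1 hX
  set H := ⌊Y / 480480⌋₊ with hH
  have hH1 : (H : ℝ) ≤ Y / 480480 := Nat.floor_le (by positivity)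
  have hH2 : Y / 480480 < H + 1 := Nat.lt_floor_add_one _
  have hHH : H₀ ≤ H := by
    apply Nat.le_floor
    rw [le_div_iff₀ (by norm_num)]
    linarith
  set N := 10000 * K with hN
  have hN1 : 10000 ≤ N := by omega
  have hNH : 480480 * N ≤ H := by
    have : ((480480 * N : ℕ) : ℝ) ≤ H := by
      rw [hN]
      push_cast
      linarith
    exact_mod_cast this
  have hPρ : ∀ ρ ∈ ({71, 23} : Finset ℕ), 0 < ρ ∧ ρ < 480480 := by
    intro ρ hρ
    simp only [mem_insert, mem_singleton] at hρ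
    rcases hρ with rfl | rfl <;> norm_num
  have h1 := hH₀ {71, 23} N H hPρ (by decide) hN1 hHH hNH
  set G := (Ico (N + 2) H).filter (fun t => (bad {71, 23} N t : ℝ) ≤ 0.45 * N) with hG
  have h2 : 1 / 10 ^ 16 * Y ≤ (G.card : ℝ) := by linarith
  refine h2.trans ?_
  have hinj : Set.InjOn (zz N) (G : Set ℕ) := by
    intro t ht t' ht' h
    have a1 := mem_Ico.1 (mem_filter.1 (mem_coe.1 ht)).1
    have a2 := mem_Ico.1 (mem_filter.1 (mem_coe.1 ht')).1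
    rcases lt_trichotomy t t' with h3 | h3 | h3
    · exact absurd h (zz_strict a1.1 h3).ne
    · exact h3
    · exact absurd h (zz_strict a2.1 h3).ne'
  rw [← card_image_of_injOn hinj, ← Set.ncard_coe_finset, Nat.cast_le]
  apply Set.ncard_le_ncard
  · intro n hn
    rw [coe_image] at hn
    obtain ⟨t, ht, rfl⟩ := hn
    have ht' : t ∈ G := ht
    have ht1 := mem_Ico.1 (mem_filter.1 ht').1
    refine ⟨?_, ?_⟩
    · have a1 : TT t ≤ 480480 * H := by unfold TT; omega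
      have a2 : zz N t ≤ TT t ^ 4 := by
        unfold zz
        exact (Nat.div_le_self _ _).trans (Nat.sub_le _ _)
      have a3 : (TT t : ℝ) ≤ Y := by
        have a4 : (TT t : ℝ) ≤ 480480 * (H : ℝ) := by exact_mod_cast a1
        have a5 : 480480 * (H : ℝ) ≤ Y := by
          rw [le_div_iff₀ (by norm_num)] at hH1
          linarith
        exact a4.trans a5
      calc ((zz N t : ℕ) : ℝ) ≤ ((TT t ^ 4 : ℕ) : ℝ) := by exact_mod_cast a2
        _ = (TT t : ℝ) ^ 4 := by push_cast; ring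
        _ ≤ Y ^ 4 := pow_le_pow_left₀ (Nat.cast_nonneg _) a3 4
        _ = X := hY4
    · rintro r (rfl | rfl | rfl | rfl)
      · exact cluster16 hK ht1.1 (ρ := 71) (by decide) (by tauto) (mem_filter.1 ht').2
      · exact cluster16 hK ht1.1 (ρ := 23) (by decide) (by tauto) (mem_filter.1 ht').2
      · exact cluster16 hK ht1.1 (ρ := 71) (by decide) (by tauto) (mem_filter.1 ht').2
      · exact cluster16 hK ht1.1 (ρ := 23) (by decide) (by tauto) (mem_filter.1 ht').2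
  · apply Set.Finite.subset (Set.finite_Iic ⌊X⌋₊)
    intro n hn
    exact Nat.le_floor hn.1

end Pool.Agent.N737.BC
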