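import Pool.Agent.N737.BC.Avg
import Pool.Agent.N737.BC.Alg

set_option autoImplicit false

namespace Pool.Agent.N737.BC

open Finset

/-- `n` is a congruent number -/
def Con (n : ℕ) : Prop :=
  ∃ a b c : ℚ, 0 < a ∧ 0 < b ∧ 0 < c ∧ a ^ 2 + b ^ 2 = c ^ 2 ∧ (n : ℚ) = a * b / 2

/-- left end of the cluster -/
def zz (N t : ℕ) : ℕ := (TT t ^ 4 - (480480 * N) ^ 4) / 16

lemma TT_gt {N t : ℕ} (ht : N + 2 ≤ t) : 480480 * N < TT t := by unfold TT; omega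

lemma zz_strict {N t t' : ℕ} (ht : N + 2 ≤ t) (h : t < t') : zz N t < zz N t' := by
  have h1 : TT t + 1 ≤ TT t' := by unfold TT; omega
  have h2 : 2 ≤ TT t := by unfold TT; omega
  have h3 : (TT t + 1) ^ 4 ≤ TT t' ^ 4 := Nat.pow_le_pow_left h1 4
  have h4 : TT t ^ 4 + 16 ≤ (TT t + 1) ^ 4 := by
    generalize TT t = x at h2
    nlinarith [pow_pos (show 0 < x by omega) 2, pow_le_pow_left' h2 3]
  have h5 : (480480 * N) ^ 4 ≤ TT t ^ 4 := Nat.pow_le_pow_left (TT_gt ht).le 4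
  unfold zz
  generalize TT t ^ 4 = a at *
  generalize TT t' ^ 4 = b at *
  generalize (480480 * N) ^ 4 = q at *
  omega

/-- the class of `ρ` -/
def Cls (ρ c : ℕ) : Prop :=
  (ρ = 37 ∧ c = 1) ∨ (ρ = 29 ∧ c = 3) ∨ (ρ = 43 ∧ c = 5) ∨ (ρ = 19 ∧ c = 7) ∨
      (ρ = 71 ∧ c = 2) ∨ (ρ = 23 ∧ c = 6)

lemma cls_bd {ρ c : ℕ} (h : Cls ρ c) :
    0 < ρ ∧ ρ < 480480 ∧ ρ % 2 = 1 ∧ Nat.Coprime ρ 15015 ∧ c % 4 ≠ 0 := by
  rcases h with ⟨rfl, rfl⟩ | ⟨rfl, rfl⟩ | ⟨rfl, rfl⟩ | ⟨rfl, rfl⟩ | ⟨rfl, rfl⟩ | ⟨rfl, rfl⟩ <;>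
    refine ⟨by norm_num, by norm_num, by norm_num, by norm_num, by norm_num⟩

/-- a good `t` gives a cluster -/
lemma cluster {P : Finset ℕ} {K t ρ c : ℕ} (hK : 1 ≤ K) (ht : 10000 * K + 2 ≤ t) (hρ : ρ ∈ P)
    (hc : Cls ρ c) (hb : (bad P (10000 * K) t : ℝ) ≤ 0.9 * ((10000 * K : ℕ) : ℝ)) :
    K ≤ {m : ℕ | zz (10000 * K) t ≤ m ∧ (m : ℝ) ≤ zz (10000 * K) t + 4804800000 ^ 4 * (K : ℝ) ^ 4 ∧
      m % 8 = c ∧ Squarefree m ∧ Con m}.ncard := by
  classical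
  obtain ⟨hρ0, hρ1, hρ2, hρ3, hc4⟩ := cls_bd hc
  have h1 := many hρ hb
  set N := 10000 * K with hN
  set A := (range N).filter
      (fun i => ∀ p : ℕ, p.Prime → 17 ≤ p → ¬ BadP p (TT t) (RR ρ i)) with hA
  have hKA : K ≤ A.card := by
    have h2 : (K : ℝ) ≤ A.card := by
      refine le_trans ?_ h1
      rw [hN]
      push_cast
      have : (0 : ℝ) ≤ K := Nat.cast_nonneg K
      linarith
    exact_mod_cast h2
  refine hKA.trans ?_
  have hlt : ∀ i ∈ A, RR ρ i < TT t := by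
    intro i hi
    have h3 := RR_lt hρ1 (mem_range.1 (mem_filter.1 hi).1)
    exact h3.trans (TT_gt ht)
  have hex : ∀ i, ∃ n, i ∈ A → (0 < n ∧ 16 * n + RR ρ i ^ 4 = TT t ^ 4) := by
    intro i
    by_cases hi : i ∈ A
    · obtain ⟨n, hn⟩ := ex_n hρ2 (hlt i hi)
      exact ⟨n, fun _ => hn⟩
    · exact ⟨0, fun h => absurd h hi⟩
  choose f hf using hex
  have hinj : Set.InjOn f (A : Set ℕ) := by
    intro i hi j hj hij
    have e1 := (hf i hi).2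
    have e2 := (hf j hj).2
    rw [hij] at e1
    have e3 : RR ρ i ^ 4 = RR ρ j ^ 4 := by omega
    have e4 : RR ρ i = RR ρ j := Nat.pow_left_injective (by norm_num : (4 : ℕ) ≠ 0) e3
    unfold RR at e4
    omega
  rw [← card_image_of_injOn hinj, ← Set.ncard_coe_finset]
  apply Set.ncard_le_ncard
  · intro m hm
    rw [coe_image] at hm
    obtain ⟨i, hi, rfl⟩ := hm
    have hi' : i ∈ A := hi
    have e1 := (hf i hi').2
    have h3 := RR_lt hρ1 (mem_range.1 (mem_filter.1 hi').1)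
    have h4 : RR ρ i ^ 4 ≤ (480480 * N) ^ 4 := Nat.pow_le_pow_left h3.le 4
    have h5 : 1 ≤ (480480 * N) ^ 4 := Nat.one_le_pow _ _ (by omega)
    have hmod := cls hc e1
    have hzz : zz N t = (TT t ^ 4 - (480480 * N) ^ 4) / 16 := rfl
    have h6 : (480480 * N) ^ 4 ≤ TT t ^ 4 := Nat.pow_le_pow_left (TT_gt ht).le 4
    have hle : zz N t ≤ f i := by
      rw [hzz]
      generalize TT t ^ 4 = a at *
      generalize (480480 * N) ^ 4 = q at *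
      generalize RR ρ i ^ 4 = b at *
      omega
    have hge : f i ≤ zz N t + (480480 * N) ^ 4 := by
      rw [hzz]
      generalize TT t ^ 4 = a at *
      generalize (480480 * N) ^ 4 = q at *
      generalize RR ρ i ^ 4 = b at *
      omega
    refine ⟨hle, ?_, hmod, ?_, ?_⟩
    · have h7 : ((f i : ℕ) : ℝ) ≤ ((zz N t + (480480 * N) ^ 4 : ℕ) : ℝ) := by exact_mod_cast hge
      refine h7.trans (le_of_eq ?_)
      rw [hN]
      push_cast
      ring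
    · apply sqf hρ3 e1 (by omega)
      exact (mem_filter.1 hi').2
    · exact area (by unfold RR; omega) (hlt i hi') e1
  · apply Set.Finite.subset (Set.finite_Iic ⌊(zz N t : ℝ) + 4804800000 ^ 4 * (K : ℝ) ^ 4⌋₊)
    intro m hm
    exact Nat.le_floor hm.2.1

theorem clusters (P : Finset ℕ) (hP : P.card ≤ 4) (cl : ℕ → ℕ) (hcl : ∀ ρ ∈ P, Cls ρ (cl ρ)) :
    ∃ c C X₀ : ℝ, 0 < c ∧ 0 < C ∧ ∀ X : ℝ, X₀ ≤ X → ∀ K : ℕ, 1 ≤ K → (K : ℝ) ≤ c * X ^ (1 / 4 : ℝ) →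
      c * X ^ (1 / 4 : ℝ) ≤ (({n : ℕ | (n : ℝ) ≤ X ∧ ∀ ρ ∈ P,
        K ≤ {m : ℕ | n ≤ m ∧ (m : ℝ) ≤ n + C * (K : ℝ) ^ 4 ∧ m % 8 = cl ρ ∧ Squarefree m ∧
          Con m}.ncard}.ncard : ℕ) : ℝ) := by
  classical
  obtain ⟨H₀, hH₀⟩ := good
  refine ⟨1 / 10 ^ 16, 4804800000 ^ 4, (480480 * ((H₀ : ℝ) + 2)) ^ 4, by norm_num, by norm_num, ?_⟩
  intro X hX K hK hKX
  have hH00 : (0 : ℝ) ≤ H₀ := Nat.cast_nonneg _
  have hX0 : 0 ≤ X := le_trans (by positivity) hX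
  set Y := X ^ (1 / 4 : ℝ) with hY
  have hY0 : 0 ≤ Y := Real.rpow_nonneg hX0 _
  have hY4 : Y ^ 4 = X := by
    rw [hY, ← Real.rpow_natCast, ← Real.rpow_mul hX0]
    norm_num
  have hYb : 480480 * ((H₀ : ℝ) + 2) ≤ Y := by
    rw [← hY4] at hX
    exact (pow_le_pow_iff_left₀ (by positivity) hY0 (by norm_num)).1 hX
  set H := ⌊Y / 480480⌋₊ with hH
  have hH1 : (H : ℝ) ≤ Y / 480480 := Nat.floor_le (by positivity)
  have hH2 : Y / 480480 < H + 1 := Nat.lt_floor_add_one _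
  have hHH : H₀ ≤ H := by
    apply Nat.le_floor
    rw [le_div_iff₀ (by norm_num)]
    linarith
  set N := 10000 * K with hN
  have hN1 : 10000 ≤ N := by omega
  have hNH : 480480 * N ≤ H := by
    have : ((480480 * N : ℕ) : ℝ) ≤ H := by
      rw [hN]
      push_cast
      linarith
    exact_mod_cast this
  have hPρ : ∀ ρ ∈ P, 0 < ρ ∧ ρ < 480480 := fun ρ hρ =>
    ⟨(cls_bd (hcl ρ hρ)).1, (cls_bd (hcl ρ hρ)).2.1⟩
  have h1 := hH₀ P N H hPρ hP hN1 hHH hNH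
  set G := (Ico (N + 2) H).filter (fun t => (bad P N t : ℝ) ≤ 0.9 * N) with hG
  have h2 : 1 / 10 ^ 16 * Y ≤ (G.card : ℝ) := by linarith
  refine h2.trans ?_
  have hinj : Set.InjOn (zz N) (G : Set ℕ) := by
    intro t ht t' ht' h
    have a1 := mem_Ico.1 (mem_filter.1 (mem_coe.1 ht)).1
    have a2 := mem_Ico.1 (mem_filter.1 (mem_coe.1 ht')).1
    rcases lt_trichotomy t t' with h3 | h3 | h3
    · exact absurd h (zz_strict a1.1 h3).ne
    · exact h3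
    · exact absurd h (zz_strict a2.1 h3).ne'
  rw [← card_image_of_injOn hinj, ← Set.ncard_coe_finset, Nat.cast_le]
  apply Set.ncard_le_ncard
  · intro n hn
    rw [coe_image] at hn
    obtain ⟨t, ht, rfl⟩ := hn
    have ht' : t ∈ G := ht
    have ht1 := mem_Ico.1 (mem_filter.1 ht').1
    refine ⟨?_, ?_⟩
    · have a1 : TT t ≤ 480480 * H := by unfold TT; omega
      have a2 : zz N t ≤ TT t ^ 4 := by
        unfold zz
        exact (Nat.div_le_self _ _).trans (Nat.sub_le _ _)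
      have a3 : (TT t : ℝ) ≤ Y := by
        have a4 : (TT t : ℝ) ≤ 480480 * (H : ℝ) := by exact_mod_cast a1
        have a5 : 480480 * (H : ℝ) ≤ Y := by
          rw [le_div_iff₀ (by norm_num)] at hH1
          linarith
        exact a4.trans a5
      calc ((zz N t : ℕ) : ℝ) ≤ ((TT t ^ 4 : ℕ) : ℝ) := by exact_mod_cast a2
        _ = (TT t : ℝ) ^ 4 := by push_cast; ring
        _ ≤ Y ^ 4 := pow_le_pow_left₀ (Nat.cast_nonneg _) a3 4
        _ = X := hY4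
    · intro ρ hρ
      exact cluster hK ht1.1 hρ (hcl ρ hρ) (mem_filter.1 ht').2
  · apply Set.Finite.subset (Set.finite_Iic ⌊X⌋₊)
    intro n hn
    exact Nat.le_floor hn.1

end Pool.Agent.N737.BC
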