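import Pool.Agent.N737.BC.Cnt

set_option autoImplicit false

namespace Pool.Agent.N737.BC

open Finset Filter

/-- the primes from `17` to `B - 1` -/
noncomputable def PP (B : ℕ) : Finset ℕ := (range B).filter (fun p => p.Prime ∧ 17 ≤ p)

lemma mem_PP {B p : ℕ} : p ∈ PP B ↔ p < B ∧ p.Prime ∧ 17 ≤ p := by
  simp [PP]

lemma PP_mono {B B' : ℕ} (h : B ≤ B') : PP B ⊆ PP B' := by
  intro p hp
  rw [mem_PP] at hp ⊢
  exact ⟨lt_of_lt_of_le hp.1 h, hp.2⟩

lemma sum_sq_aux (m : ℕ) (hm : 8 ≤ m) :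
    ∑ p ∈ PP (2 * m + 1), 1 / (p : ℝ) ^ 2 ≤ 1 / 32 - 1 / (4 * (m : ℝ)) := by
  induction m, hm using Nat.le_induction with
  | base =>
    have : PP (2 * 8 + 1) = ∅ := by
      ext p
      rw [mem_PP]
      simp only [notMem_empty, iff_false]
      omega
    rw [this]
    norm_num
  | succ m hm ih =>
    have hsub : PP (2 * (m + 1) + 1) ⊆ insert (2 * m + 1) (PP (2 * m + 1)) := by
      intro p hp
      rw [mem_PP] at hp
      rw [mem_insert, mem_PP]
      by_cases h1 : p < 2 * m + 1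
      · exact Or.inr ⟨h1, hp.2⟩
      · left
        have h2 : p = 2 * m + 1 ∨ p = 2 * m + 2 := by omega
        rcases h2 with h2 | h2
        · exact h2
        · exfalso
          have h3 := hp.2.1.eq_one_or_self_of_dvd 2 ⟨m + 1, by omega⟩
          omega
    have hnot : (2 * m + 1) ∉ PP (2 * m + 1) := by
      rw [mem_PP]; omega
    have h1 : ∑ p ∈ PP (2 * (m + 1) + 1), 1 / (p : ℝ) ^ 2 ≤
        ∑ p ∈ insert (2 * m + 1) (PP (2 * m + 1)), 1 / (p : ℝ) ^ 2 :=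
      sum_le_sum_of_subset_of_nonneg hsub (fun _ _ _ => by positivity)
    rw [sum_insert hnot] at h1
    have hmr : (8 : ℝ) ≤ m := by exact_mod_cast hm
    have h2 : 1 / (((2 * m + 1 : ℕ) : ℝ)) ^ 2 ≤ 1 / (4 * (m : ℝ)) - 1 / (4 * ((m : ℝ) + 1)) := by
      have e : 1 / (4 * (m : ℝ)) - 1 / (4 * ((m : ℝ) + 1)) = 1 / (4 * m * (m + 1)) := by
        field_simp
        ring
      rw [e]
      apply one_div_le_one_div_of_le (by positivity)
      push_cast
      nlinarith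
    push_cast at h2 ⊢
    push_cast at h1
    linarith

lemma sum_sq (B : ℕ) : ∑ p ∈ PP B, 1 / (p : ℝ) ^ 2 ≤ 1 / 32 := by
  have h1 : ∑ p ∈ PP B, 1 / (p : ℝ) ^ 2 ≤ ∑ p ∈ PP (2 * (B + 8) + 1), 1 / (p : ℝ) ^ 2 :=
    sum_le_sum_of_subset_of_nonneg (PP_mono (by omega)) (fun _ _ _ => by positivity)
  have h2 := sum_sq_aux (B + 8) (by omega)
  have h3 : (0 : ℝ) ≤ 1 / (4 * ((B + 8 : ℕ) : ℝ)) := by positivity
  linarith

lemma sum_inv (B : ℕ) : ∑ p ∈ PP B, 1 / (p : ℝ) ≤ 1 + Real.log B := by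
  have h1 : ∑ p ∈ PP B, 1 / (p : ℝ) ≤ ∑ p ∈ Icc 1 B, 1 / (p : ℝ) := by
    apply sum_le_sum_of_subset_of_nonneg
    · intro p hp
      rw [mem_PP] at hp
      rw [mem_Icc]
      omega
    · intro _ _ _; positivity
  have h2 : ∑ p ∈ Icc 1 B, 1 / (p : ℝ) = ((harmonic B : ℚ) : ℝ) := by
    rw [harmonic_eq_sum_Icc]
    push_cast
    exact sum_congr rfl (fun _ _ => by rw [one_div])
  have h3 := harmonic_le_one_add_log B
  linarith

lemma card_PP (B : ℕ) : (PP B).card ≤ Nat.primeCounting B := by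
  rw [Nat.primeCounting, Nat.primeCounting', Nat.count_eq_card_filter_range]
  apply card_le_card
  intro p hp
  rw [mem_PP] at hp
  rw [mem_filter, mem_range]
  exact ⟨by omega, hp.2.1⟩

lemma card_PP_le (B : ℕ) : (PP B).card ≤ B := by
  refine (card_le_card (filter_subset _ _)).trans ?_
  simp

lemma primes_small (k : ℕ) (ε : ℝ) (hε : 0 < ε) (hk : 0 < k) :
    ∃ H₀ : ℕ, ∀ H : ℕ, H₀ ≤ H → ((PP (k * H)).card : ℝ) ≤ ε * H := by
  have h1 := Chebyshev.eventually_primeCounting_le (ε := 1) one_pos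
  have hk0 : (0 : ℝ) < k := by exact_mod_cast hk
  have h2 : Tendsto (fun H : ℕ => ((k : ℝ) * (H : ℝ))) atTop atTop :=
    Tendsto.const_mul_atTop hk0 tendsto_natCast_atTop_atTop
  have h3 := h2.eventually h1
  have h4 : ∀ᶠ H : ℕ in atTop, (Real.log 4 + 1) * k / ε ≤ Real.log ((k : ℝ) * H) :=
    (Real.tendsto_log_atTop.comp h2).eventually_ge_atTop _
  obtain ⟨H₀, hH⟩ := eventually_atTop.1 ((h3.and h4).and (eventually_ge_atTop 1))
  refine ⟨H₀, fun H hHH => ?_⟩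
  obtain ⟨⟨h5, h6⟩, h7⟩ := hH H hHH
  have h8 : ⌊(k : ℝ) * (H : ℝ)⌋₊ = k * H := by
    have : (k : ℝ) * (H : ℝ) = ((k * H : ℕ) : ℝ) := by push_cast; ring
    rw [this, Nat.floor_natCast]
  rw [h8] at h5
  have h9 : ((PP (k * H)).card : ℝ) ≤ (Real.log 4 + 1) * (k * H) / Real.log (k * H) :=
    (Nat.cast_le.2 (card_PP _)).trans h5
  have hl4 : 0 < Real.log 4 := Real.log_pos (by norm_num)
  have h10 : 0 < (Real.log 4 + 1) * k / ε := by positivity
  have h11 : 0 < Real.log ((k : ℝ) * H) := lt_of_lt_of_le h10 h6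
  refine h9.trans ?_
  rw [div_le_iff₀ h11]
  have h12 : (Real.log 4 + 1) * k ≤ Real.log ((k : ℝ) * H) * ε := by
    rwa [div_le_iff₀ hε] at h6
  have hH0 : (0 : ℝ) ≤ H := Nat.cast_nonneg H
  nlinarith [mul_le_mul_of_nonneg_right h12 hH0]

/-- `3 + 2 log (480480 N)` is small compared to `N` -/
lemma log_small (N : ℕ) (hN : 10000 ≤ N) :
    3 + 2 * Real.log ((480480 * N : ℕ) : ℝ) ≤ 0.0075 * N := by
  have hNr : (10000 : ℝ) ≤ N := by exact_mod_cast hN
  have h1 : Real.log ((480480 * N : ℕ) : ℝ) ≤ 33 * Real.log 2 + ((N : ℝ) / 10000 - 1) := by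
    have h2 : ((480480 * N : ℕ) : ℝ) ≤ 2 ^ 33 * ((N : ℝ) / 10000) := by
      push_cast
      nlinarith
    have h3 : (0 : ℝ) < ((480480 * N : ℕ) : ℝ) := by push_cast; positivity
    refine (Real.log_le_log h3 h2).trans ?_
    rw [Real.log_mul (by positivity) (by positivity), Real.log_pow]
    have h4 := Real.log_le_sub_one_of_pos (show (0 : ℝ) < (N : ℝ) / 10000 by positivity)
    push_cast
    linarith
  have h5 := Real.log_two_lt_d9
  nlinarith

end Pool.Agent.N737.BC
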